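import Pool.Agent.CYE.StmtsG

/-!
# Squad CYE (MP_734b60_nt), row TH2: Theorem K, strong form
-/

set_option autoImplicit false

open Polynomial

namespace Pool.Agent.CYE.H17

open Pool.Agent.CYD

theorem odd_case (hFI : Fi2Stmt) (n p : ℕ) (ho : Odd n) (hn : Squarefree n) (hp : p.Prime)
    (hpn : p ∣ n) (h : 2 ^ (30 * n.primeFactors.card * 2 ^ n.primeFactors.card) ≤ p) :
    Irreducible (derivative (cyclotomic n ℚ)) := by
  have hn0 : n ≠ 0 := hn.ne_zero
  have hp2 : p ≠ 2 := by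
    rintro rfl
    exact (Nat.not_even_iff_odd.2 ho) (even_iff_two_dvd.2 hpn)
  by_cases hnp : n.Prime
  · have h1 : p = n := (Nat.prime_dvd_prime_iff_eq hp hnp).1 hpn
    subst h1
    exact prm p hp hp2
  have hmem : p ∈ n.primeFactors := Nat.mem_primeFactors.2 ⟨hp, hpn, hn0⟩
  obtain ⟨P, hP, hmax⟩ := n.primeFactors.exists_max_image id ⟨p, hmem⟩
  obtain ⟨hPp, ⟨m, hm⟩, -⟩ := Nat.mem_primeFactors.1 hP
  have hpP : p ≤ P := hmax p hmem
  have hmo : Odd m := by
    rw [hm] at ho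
    exact (Nat.odd_mul.1 ho).2
  have hm1 : m ≠ 1 := by
    rintro rfl
    rw [mul_one] at hm
    exact hnp (hm ▸ hPp)
  have hm3 : 3 ≤ m := by
    obtain ⟨t, ht⟩ := hmo
    omega
  have h3 : 3 ≤ n := by
    rw [hm]
    have := hPp.pos
    nlinarith
  refine red' n h3 ho hn ?_
  intro g k hF
  have hF' : Fm P m g k := by
    refine ⟨hPp, hm3, ?_, hm ▸ hF⟩
    intro l hl hlm
    have h4 : l ∈ n.primeFactors := Nat.mem_primeFactors.2 ⟨hl, hm ▸ hlm.mul_left P, hn0⟩
    refine lt_of_le_of_ne (hmax l h4) ?_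
    rintro rfl
    have h5 : l * l ∣ n := by
      rw [hm]
      exact mul_dvd_mul_left l hlm
    exact hl.one_lt.ne' (Nat.isUnit_iff.1 (hn l h5))
  have h6 := hFI P m g k hF'
  rw [← hm] at h6
  omega

theorem th2 (hFI : Fi2Stmt) : Th2Stmt := by
  intro n p hn hp hpn h
  have hn0 : n ≠ 0 := hn.ne_zero
  rcases Nat.even_or_odd n with he | ho
  swap
  · exact odd_case hFI n p ho hn hp hpn h
  obtain ⟨m, hm⟩ := even_iff_two_dvd.1 he
  have hmem : p ∈ n.primeFactors := Nat.mem_primeFactors.2 ⟨hp, hpn, hn0⟩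
  have hk : 1 ≤ n.primeFactors.card := Finset.card_pos.2 ⟨p, hmem⟩
  have hp2 : p ≠ 2 := by
    rintro rfl
    have h1 : 2 ^ 2 ≤ 2 ^ (30 * n.primeFactors.card * 2 ^ n.primeFactors.card) := by
      apply Nat.pow_le_pow_right (by norm_num)
      have h2 : 1 ≤ 2 ^ n.primeFactors.card := Nat.one_le_two_pow
      nlinarith
    omega
  have hmo : Odd m := by
    by_contra hc
    rw [Nat.not_odd_iff_even] at hc
    obtain ⟨t, ht⟩ := even_iff_two_dvd.1 hc
    have h2 : 2 * 2 ∣ n := ⟨t, by rw [hm, ht]; ring⟩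
    have h3 := Nat.isUnit_iff.1 (hn 2 h2)
    omega
  have hmn : m ∣ n := ⟨2, by rw [hm]; ring⟩
  have hpm : p ∣ m := by
    have h1 : p ∣ 2 * m := hm ▸ hpn
    rcases (Nat.Prime.dvd_mul hp).1 h1 with h2 | h2
    · exact absurd ((Nat.prime_dvd_prime_iff_eq hp Nat.prime_two).1 h2) hp2
    · exact h2
  have hm0 : m ≠ 0 := by
    rintro rfl
    exact hn0 hm
  have hm1 : 1 < m := lt_of_lt_of_le hp.one_lt (Nat.le_of_dvd (Nat.pos_of_ne_zero hm0) hpm)
  have hcard : m.primeFactors.card ≤ n.primeFactors.card :=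
    Finset.card_le_card (Nat.primeFactors_mono hmn hn0)
  have h' : 2 ^ (30 * m.primeFactors.card * 2 ^ m.primeFactors.card) ≤ p := by
    refine le_trans ?_ h
    apply Nat.pow_le_pow_right (by norm_num)
    exact Nat.mul_le_mul (Nat.mul_le_mul_left _ hcard) (Nat.pow_le_pow_right (by norm_num) hcard)
  rw [hm]
  exact dbl m hmo hm1 (odd_case hFI m p hmo (hn.squarefree_of_dvd hmn) hp hpm h')

end Pool.Agent.CYE.H17
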